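import Pool.Agent.Run7.h356.LP.Stm

/-!
# Project LP (MP_85210c_gt): the leaf STA
-/

set_option autoImplicit false

noncomputable section

open MeasureTheory Filter Topology Set
open scoped BigOperators

namespace Run7.h255.LPS

open H712MA H356LP

variable (D : Disc)

/-- the image of the closed disc -/
def K : Set ℂ := D.h '' Metric.closedBall 0 1

theorem K_compact : IsCompact (K D) :=
  (isCompact_closedBall (0 : ℂ) 1).image_of_continuousOn D.cont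

theorem U_sub_K : D.U ⊆ K D := Set.image_mono Metric.ball_subset_closedBall

theorem E_spec {t : ℂ} (ht : t ∈ K D) : ‖D.E t‖ ≤ 1 ∧ D.h (D.E t) = t := by
  have h : ∃ z : ℂ, ‖z‖ ≤ 1 ∧ D.h z = t := by
    obtain ⟨z, hz, rfl⟩ := ht
    exact ⟨z, by simpa using hz, rfl⟩
  unfold Disc.E
  rw [dif_pos h]
  exact Classical.choose_spec h

theorem hd_ne {w : ℂ} (hw : ‖w‖ ≤ 1) : D.hd w ≠ 0 := by
  intro h
  have := D.re w hw
  rw [h] at this
  simp at this
  linarith [D.c0_pos]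

theorem der_within {w : ℂ} (hw : ‖w‖ ≤ 1) :
    HasFDerivWithinAt D.h (D.hd w • (1 : ℂ →L[ℝ] ℂ)) (Metric.closedBall 0 1) w := by
  have hb : closure (Metric.ball (0 : ℂ) 1) = Metric.closedBall 0 1 := closure_ball 0 one_ne_zero
  have hf : ∀ y ∈ Metric.ball (0 : ℂ) 1, HasFDerivAt D.h (D.hd y • (1 : ℂ →L[ℝ] ℂ)) y := fun y hy =>
    (D.der y (by simpa using hy)).complexToReal_fderiv
  have h := hasFDerivWithinAt_closure_of_tendsto_fderiv (f := D.h) (s := Metric.ball (0 : ℂ) 1) (x := w)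
    (f' := D.hd w • (1 : ℂ →L[ℝ] ℂ))
    (fun y hy => (hf y hy).differentiableAt.differentiableWithinAt) (convex_ball _ _)
    Metric.isOpen_ball
    (by
      intro y hy
      rw [hb] at hy
      exact (D.cont y hy).mono Metric.ball_subset_closedBall)
    (by
      have h1 : Tendsto D.hd (𝓝[Metric.ball 0 1] w) (𝓝 (D.hd w)) :=
        (D.contd w (by simpa using hw)).mono Metric.ball_subset_closedBall
      have h2 : Tendsto (fun y => D.hd y • (1 : ℂ →L[ℝ] ℂ)) (𝓝[Metric.ball 0 1] w)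
          (𝓝 (D.hd w • (1 : ℂ →L[ℝ] ℂ))) := h1.smul_const _
      refine h2.congr' ?_
      filter_upwards [self_mem_nhdsWithin] with y hy
      exact (hf y hy).fderiv.symm)
  rwa [hb] at h

/-- derivative of the inverse along a ray -/
theorem ray_der (hL : ∀ z w : ℂ, ‖z‖ ≤ 1 → ‖w‖ ≤ 1 → D.c0 * ‖z - w‖ ≤ ‖D.h z - D.h w‖)
    {w0 : ℂ} (hw : ‖w0‖ ≤ 1) (S : Set ℝ) (hS : ∀ s ∈ S, (s : ℂ) * D.h w0 ∈ K D) :
    HasDerivWithinAt (fun s : ℝ => D.E ((s : ℂ) * D.h w0)) (D.h w0 / D.hd w0) S 1 := by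
  have hK : D.h w0 ∈ K D := ⟨w0, by simpa using hw, rfl⟩
  have hE : D.E (D.h w0) = w0 := by
    obtain ⟨h1, h2⟩ := E_spec D hK
    have h3 := hL _ _ h1 hw
    rw [h2, sub_self, norm_zero] at h3
    have h4 : ‖D.E (D.h w0) - w0‖ ≤ 0 := by
      by_contra h
      push Not at h
      have := mul_pos D.c0_pos h
      linarith
    exact sub_eq_zero.1 (norm_le_zero_iff.1 h4)
  have hbd : ∀ s ∈ S, ‖D.E ((s : ℂ) * D.h w0) - w0‖ ≤ ‖D.h w0‖ / D.c0 * ‖s - 1‖ := by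
    intro s hs
    obtain ⟨h1, h2⟩ := E_spec D (hS s hs)
    have h3 := hL _ _ h1 hw
    rw [h2] at h3
    have h4 : (s : ℂ) * D.h w0 - D.h w0 = ((s - 1 : ℝ) : ℂ) * D.h w0 := by push_cast; ring
    rw [h4, norm_mul, Complex.norm_real] at h3
    rw [div_mul_eq_mul_div, le_div_iff₀ D.c0_pos]
    linarith
  have hO : (fun s : ℝ => D.E ((s : ℂ) * D.h w0) - w0) =O[𝓝[S] 1] fun s : ℝ => s - 1 := by
    refine Asymptotics.IsBigO.of_bound (‖D.h w0‖ / D.c0) ?_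
    filter_upwards [self_mem_nhdsWithin] with s hs
    exact hbd s hs
  have hT : Tendsto (fun s : ℝ => D.E ((s : ℂ) * D.h w0)) (𝓝[S] 1)
      (𝓝[Metric.closedBall 0 1] w0) := by
    refine tendsto_nhdsWithin_iff.2 ⟨?_, ?_⟩
    · have h0 : Tendsto (fun s : ℝ => s - 1) (𝓝[S] 1) (𝓝 0) := by
        have : Tendsto (fun s : ℝ => s - 1) (𝓝 1) (𝓝 (1 - 1)) :=
          (continuous_id.sub continuous_const).tendsto 1
        rw [sub_self] at this
        exact this.mono_left nhdsWithin_le_nhds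
      have h1 := hO.trans_tendsto h0
      have h2 := h1.add_const w0
      simpa using h2
    · filter_upwards [self_mem_nhdsWithin] with s hs
      simpa using (E_spec D (hS s hs)).1
  have ho := (der_within D hw).isLittleO.comp_tendsto hT
  have ho2 := (ho.trans_isBigO hO).const_mul_left (-(D.hd w0)⁻¹)
  rw [hasDerivWithinAt_iff_isLittleO]
  refine ho2.congr' ?_ EventuallyEq.rfl
  filter_upwards [self_mem_nhdsWithin] with s hs
  obtain ⟨h1, h2⟩ := E_spec D (hS s hs)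
  have hne := hd_ne D hw
  simp only [Function.comp_apply, Complex.ofReal_one, one_mul, hE]
  rw [h2]
  simp only [smul_apply, one_apply_eq_self, smul_eq_mul,
    Complex.real_smul]
  push_cast
  field_simp
  ring

theorem ray_slope (hL : ∀ z w : ℂ, ‖z‖ ≤ 1 → ‖w‖ ≤ 1 → D.c0 * ‖z - w‖ ≤ ‖D.h z - D.h w‖)
    (hE : ∀ z : ℂ, ‖z‖ ≤ 1 → D.E (D.h z) = z)
    {w0 : ℂ} (hw : ‖w0‖ ≤ 1) (hw0 : w0 ≠ 0) (S : Set ℝ) (hS : ∀ s ∈ S, (s : ℂ) * D.h w0 ∈ K D) :
    ∀ᶠ s : ℝ in 𝓝[S \ {1}] (1 : ℝ), 0 < (s - 1)⁻¹ * (‖D.E ((s : ℂ) * D.h w0)‖ ^ 2 - ‖w0‖ ^ 2) := by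
  have h := (ray_der D hL hw S hS).norm_sq
  rw [hasDerivWithinAt_iff_tendsto_slope] at h
  have hpos : 0 < 2 * inner ℝ (D.E (((1 : ℝ) : ℂ) * D.h w0)) (D.h w0 / D.hd w0) := by
    rw [Complex.ofReal_one, one_mul, hE w0 hw, Complex.inner]
    have hne := hd_ne D hw
    have h1 := D.star w0 hw hw0
    have h2 : 0 < Complex.normSq (D.hd w0) := Complex.normSq_pos.2 hne
    have h3 : (D.h w0 / D.hd w0 * starRingEnd ℂ w0).re =
        (w0 * D.hd w0 * starRingEnd ℂ (D.h w0)).re / Complex.normSq (D.hd w0) := by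
      simp only [Complex.mul_re, Complex.mul_im, Complex.conj_re, Complex.conj_im, Complex.div_re,
        Complex.div_im]
      field_simp
      ring
    rw [h3]
    positivity
  have h2 := h.eventually (lt_mem_nhds hpos)
  filter_upwards [h2] with s hs
  rw [slope_def_field] at hs
  simp only [Complex.ofReal_one, one_mul, hE w0 hw] at hs
  rw [inv_mul_eq_div]
  exact hs

theorem ray_lt (hL : ∀ z w : ℂ, ‖z‖ ≤ 1 → ‖w‖ ≤ 1 → D.c0 * ‖z - w‖ ≤ ‖D.h z - D.h w‖)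
    (hE : ∀ z : ℂ, ‖z‖ ≤ 1 → D.E (D.h z) = z)
    {w0 : ℂ} (hw : ‖w0‖ ≤ 1) (hw0 : w0 ≠ 0)
    (hev : ∀ᶠ s : ℝ in 𝓝[<] (1 : ℝ), (s : ℂ) * D.h w0 ∈ K D) :
    ∀ᶠ s : ℝ in 𝓝[<] (1 : ℝ), ‖D.E ((s : ℂ) * D.h w0)‖ < ‖w0‖ := by
  have h := ray_slope D hL hE hw hw0 {s : ℝ | (s : ℂ) * D.h w0 ∈ K D} (fun s hs => hs)
  have hle : 𝓝[<] (1 : ℝ) ≤ 𝓝[{s : ℝ | (s : ℂ) * D.h w0 ∈ K D} \ {1}] 1 := by
    refine nhdsWithin_le_of_mem ?_
    filter_upwards [hev, self_mem_nhdsWithin] with s h1 h2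
    exact ⟨h1, ne_of_lt h2⟩
  filter_upwards [h.filter_mono hle, self_mem_nhdsWithin] with s h1 h2
  have h3 : (s - 1)⁻¹ < 0 := inv_lt_zero.2 (sub_neg.2 h2)
  have h4 : ‖D.E ((s : ℂ) * D.h w0)‖ ^ 2 - ‖w0‖ ^ 2 < 0 := by
    by_contra hc
    push Not at hc
    have := mul_nonpos_of_nonpos_of_nonneg h3.le hc
    linarith
  exact lt_of_pow_lt_pow_left₀ 2 (norm_nonneg _) (by linarith)

theorem ray_gt (hL : ∀ z w : ℂ, ‖z‖ ≤ 1 → ‖w‖ ≤ 1 → D.c0 * ‖z - w‖ ≤ ‖D.h z - D.h w‖)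
    (hE : ∀ z : ℂ, ‖z‖ ≤ 1 → D.E (D.h z) = z)
    {w0 : ℂ} (hw : ‖w0‖ ≤ 1) (hw0 : w0 ≠ 0)
    (hev : ∀ᶠ s : ℝ in 𝓝[>] (1 : ℝ), (s : ℂ) * D.h w0 ∈ K D) :
    ∀ᶠ s : ℝ in 𝓝[>] (1 : ℝ), ‖w0‖ < ‖D.E ((s : ℂ) * D.h w0)‖ := by
  have h := ray_slope D hL hE hw hw0 {s : ℝ | (s : ℂ) * D.h w0 ∈ K D} (fun s hs => hs)
  have hle : 𝓝[>] (1 : ℝ) ≤ 𝓝[{s : ℝ | (s : ℂ) * D.h w0 ∈ K D} \ {1}] 1 := by
    refine nhdsWithin_le_of_mem ?_
    filter_upwards [hev, self_mem_nhdsWithin] with s h1 h2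
    exact ⟨h1, ne_of_gt h2⟩
  filter_upwards [h.filter_mono hle, self_mem_nhdsWithin] with s h1 h2
  have h3 : 0 < (s - 1)⁻¹ := inv_pos.2 (sub_pos.2 h2)
  have h4 : 0 < ‖D.E ((s : ℂ) * D.h w0)‖ ^ 2 - ‖w0‖ ^ 2 := by
    by_contra hc
    push Not at hc
    have := mul_nonpos_of_nonneg_of_nonpos h3.le hc
    linarith
  exact lt_of_pow_lt_pow_left₀ 2 (norm_nonneg _) (by linarith)

/-- Step 1: the image of a smaller closed disc is star-shaped. -/
theorem star1 (hL : ∀ z w : ℂ, ‖z‖ ≤ 1 → ‖w‖ ≤ 1 → D.c0 * ‖z - w‖ ≤ ‖D.h z - D.h w‖)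
    (hU : IsOpen D.U) (hE : ∀ z : ℂ, ‖z‖ ≤ 1 → D.E (D.h z) = z) {z : ℂ} (hz : ‖z‖ < 1)
    {r : ℝ} (hr0 : 0 ≤ r) (hr1 : r ≤ 1) : (r : ℂ) * D.h z ∈ D.h '' Metric.closedBall 0 ‖z‖ := by
  have hKz : IsCompact (D.h '' Metric.closedBall 0 ‖z‖) :=
    (isCompact_closedBall (0 : ℂ) ‖z‖).image_of_continuousOn
      (D.cont.mono (Metric.closedBall_subset_closedBall hz.le))
  set A : Set ℝ := {x : ℝ | ((1 - x : ℝ) : ℂ) * D.h z ∈ D.h '' Metric.closedBall 0 ‖z‖} with hA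
  have hAc : IsClosed A :=
    hKz.isClosed.preimage (by fun_prop)
  have key : Icc (0 : ℝ) 1 ⊆ A := by
    refine IsClosed.Icc_subset_of_forall_exists_gt (hAc.inter isClosed_Icc) ?_ ?_
    · refine ⟨z, by simp, ?_⟩
      simp
    · rintro x ⟨hxA, hx0, hx1⟩ y hy
      obtain ⟨w0, hw0, hw1⟩ := hxA
      have hw0' : ‖w0‖ ≤ ‖z‖ := by simpa using hw0
      have hwlt : ‖w0‖ < 1 := lt_of_le_of_lt hw0' hz
      by_cases h0 : w0 = 0
      · -- then `h z = 0`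
        rw [h0, D.zero] at hw1
        have hx : ((1 - x : ℝ) : ℂ) ≠ 0 := by
          have : (1 - x : ℝ) ≠ 0 := (sub_pos.2 hx1).ne'
          exact Complex.ofReal_ne_zero.2 this
        have hz0 : D.h z = 0 := by
          rcases mul_eq_zero.1 hw1.symm with h | h
          · exact absurd h hx
          · exact h
        refine ⟨y, ?_, hy, le_rfl⟩
        refine ⟨0, by simp, ?_⟩
        rw [hz0, mul_zero, D.zero]
      · have hopen : IsOpen {s : ℝ | (s : ℂ) * D.h w0 ∈ D.U} := hU.preimage (by fun_prop)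
        have hmem : (1 : ℝ) ∈ {s : ℝ | (s : ℂ) * D.h w0 ∈ D.U} := by
          change ((1 : ℝ) : ℂ) * D.h w0 ∈ D.U
          rw [Complex.ofReal_one, one_mul]
          exact ⟨w0, by simpa using hwlt, rfl⟩
        have hev : ∀ᶠ s : ℝ in 𝓝[<] (1 : ℝ), (s : ℂ) * D.h w0 ∈ K D := by
          filter_upwards [nhdsWithin_le_nhds (hopen.mem_nhds hmem)] with s hs
          exact U_sub_K D hs
        have h1 := ray_lt D hL hE hwlt.le h0 hev
        have h2 : ∀ᶠ s : ℝ in 𝓝[<] (1 : ℝ), 1 - (1 - x) * s ≤ y := by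
          have hc : Tendsto (fun s : ℝ => 1 - (1 - x) * s) (𝓝[<] 1) (𝓝 (1 - (1 - x) * 1)) :=
            ((continuous_const.sub (continuous_const.mul continuous_id)).tendsto 1).mono_left
              nhdsWithin_le_nhds
          have hlt : 1 - (1 - x) * 1 < y := by
            have : x < y := hy
            linarith
          filter_upwards [hc.eventually (gt_mem_nhds hlt)] with s hs
          exact hs.le
        obtain ⟨s, hs1, hs2, hs3, hs4⟩ := (h1.and (h2.and (hev.and self_mem_nhdsWithin))).exists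
        have hs4' : s < 1 := hs4
        refine ⟨1 - (1 - x) * s, ?_, ?_, hs2⟩
        · obtain ⟨h5, h6⟩ := E_spec D hs3
          refine ⟨D.E ((s : ℂ) * D.h w0), ?_, ?_⟩
          · simpa using hs1.le.trans hw0'
          · rw [h6, hw1]
            push_cast
            ring
        · have : 0 < (1 - x) * (1 - s) := mul_pos (by linarith) (by linarith)
          change x < 1 - (1 - x) * s
          linarith
  have h := key (show (1 - r) ∈ Icc (0 : ℝ) 1 from ⟨by linarith, by linarith⟩)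
  have h' : ((1 - (1 - r) : ℝ) : ℂ) * D.h z ∈ D.h '' Metric.closedBall 0 ‖z‖ := h
  rwa [sub_sub_cancel] at h'

/-- Step 2: the image of the closed disc is star-shaped. -/
theorem star2 (hL : ∀ z w : ℂ, ‖z‖ ≤ 1 → ‖w‖ ≤ 1 → D.c0 * ‖z - w‖ ≤ ‖D.h z - D.h w‖)
    (hU : IsOpen D.U) (hE : ∀ z : ℂ, ‖z‖ ≤ 1 → D.E (D.h z) = z) {z : ℂ} (hz : ‖z‖ ≤ 1)
    {r : ℝ} (hr0 : 0 ≤ r) (hr1 : r ≤ 1) : (r : ℂ) * D.h z ∈ K D := by
  have h1 : ∀ ρ : ℝ, 0 ≤ ρ → ρ < 1 → (r : ℂ) * D.h ((ρ : ℂ) * z) ∈ K D := by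
    intro ρ h0 h1
    have hn : ‖(ρ : ℂ) * z‖ < 1 := by
      rw [norm_mul, Complex.norm_real, Real.norm_of_nonneg h0]
      nlinarith [norm_nonneg z]
    have := star1 D hL hU hE hn hr0 hr1
    exact Set.image_mono (Metric.closedBall_subset_closedBall hn.le) this
  have hc : Tendsto (fun ρ : ℝ => (ρ : ℂ) * z) (𝓝[<] 1) (𝓝[Metric.closedBall 0 1] z) := by
    refine tendsto_nhdsWithin_iff.2 ⟨?_, ?_⟩
    · have : Tendsto (fun ρ : ℝ => (ρ : ℂ) * z) (𝓝 1) (𝓝 (((1 : ℝ) : ℂ) * z)) :=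
        (Complex.continuous_ofReal.mul continuous_const).tendsto 1
      rw [Complex.ofReal_one, one_mul] at this
      exact this.mono_left nhdsWithin_le_nhds
    · filter_upwards [self_mem_nhdsWithin, nhdsWithin_le_nhds (lt_mem_nhds (zero_lt_one' ℝ))] with ρ h2 h3
      have h2' : ρ < 1 := h2
      rw [mem_closedBall_zero_iff, norm_mul, Complex.norm_real, Real.norm_of_nonneg (le_of_lt h3)]
      nlinarith [norm_nonneg z]
  have h2 : Tendsto (fun ρ : ℝ => (r : ℂ) * D.h ((ρ : ℂ) * z)) (𝓝[<] 1) (𝓝 ((r : ℂ) * D.h z)) :=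
    ((D.cont z (by simpa using hz)).tendsto.comp hc).const_mul _
  refine (K_compact D).isClosed.mem_of_tendsto h2 ?_
  filter_upwards [self_mem_nhdsWithin, nhdsWithin_le_nhds (lt_mem_nhds (zero_lt_one' ℝ))] with ρ h3 h4
  exact h1 ρ (le_of_lt h4) h3

/-- **The leaf STA.** -/
theorem t_STA (h : S_LEN) : S_STA := by
  intro D
  obtain ⟨hL, hU, hE, -, -⟩ := h D
  refine ⟨?_, ?_⟩
  · intro z hz r hr0 hr1
    obtain ⟨w, hw, hwr⟩ := star2 D hL hU hE hz hr0 hr1.le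
    have hw' : ‖w‖ ≤ 1 := by simpa using hw
    rcases lt_or_eq_of_le hw' with hlt | heq
    · exact ⟨w, by simpa using hlt, hwr⟩
    exfalso
    have hw0 : w ≠ 0 := by
      intro h0
      rw [h0, norm_zero] at heq
      exact zero_ne_one heq
    rcases eq_or_lt_of_le hr0 with h0 | hpos
    · rw [← h0, Complex.ofReal_zero, zero_mul] at hwr
      have h1 := hL w 0 hw' (by simp)
      rw [hwr, D.zero, sub_zero, sub_zero, heq, norm_zero, mul_one] at h1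
      linarith [D.c0_pos]
    · have hev : ∀ᶠ s : ℝ in 𝓝[>] (1 : ℝ), (s : ℂ) * D.h w ∈ K D := by
        have hlt : 1 < 1 / r := by rw [lt_div_iff₀ hpos]; linarith
        filter_upwards [self_mem_nhdsWithin, nhdsWithin_le_nhds (gt_mem_nhds hlt)] with s h1 h2
        have h1' : 1 < s := h1
        have h3 : s * r ≤ 1 := by
          rw [lt_div_iff₀ hpos] at h2
          exact h2.le
        have h4 := star2 D hL hU hE hz (r := s * r) (by positivity) h3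
        rw [hwr, ← mul_assoc]
        push_cast at h4
        exact h4
      obtain ⟨s, h1, h2⟩ := ((ray_gt D hL hE hw' hw0 hev).and hev).exists
      rw [heq] at h1
      exact absurd (E_spec D h2).1 (not_le.2 h1)
  · rintro z hz ⟨w, hw, hwz⟩
    have hw' : ‖w‖ < 1 := by simpa using hw
    have h1 := hL w z hw'.le hz.le
    rw [hwz, sub_self, norm_zero] at h1
    have h2 : w ≠ z := by
      intro h
      rw [h] at hw'
      linarith
    have := mul_pos D.c0_pos (norm_pos_iff.2 (sub_ne_zero.2 h2))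
    linarith

end Run7.h255.LPS
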