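import Pool.Agent.Run7.h255.LP.STA

/-!
# Project LP (MP_85210c_gt): the leaf VVV
-/

set_option autoImplicit false

noncomputable section

open MeasureTheory Filter Topology Set
open scoped BigOperators

namespace Run7.h255.LPV

open H712MA H356LP Run7.h255.LPS

variable (D : Disc) {p : ℝ}

/-- the scaled point -/
abbrev scl (p s : ℝ) (t : ℂ) : ℂ := ((s ^ (-(1 / p)) : ℝ) : ℂ) * t

/-- the set of the admissible `s` -/
abbrev AS (p : ℝ) (t : ℂ) : Set ℝ := {s : ℝ | 0 < s ∧ ((s ^ (-(1 / p)) : ℝ) : ℂ) * t ∈ D.U}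

theorem V_def (t : ℂ) : D.V p t = sInf (AS D p t) := rfl

theorem bdd (t : ℂ) : BddBelow (AS D p t) := ⟨0, fun _ hs => hs.1.le⟩

theorem zero_mem_U : (0 : ℂ) ∈ D.U := ⟨0, by simp, D.zero⟩

theorem scl_cont {s : ℝ} (hs : 0 < s) (t : ℂ) :
    ContinuousAt (fun s : ℝ => ((s ^ (-(1 / p)) : ℝ) : ℂ) * t) s := by
  have h : ContinuousAt (fun s : ℝ => s ^ (-(1 / p))) s :=
    Real.continuousAt_rpow_const s _ (Or.inl hs.ne')
  exact (Complex.continuous_ofReal.continuousAt.comp h).mul continuousAt_const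

theorem nonempty (hp : 0 < p) (hU : IsOpen D.U) (t : ℂ) : (AS D p t).Nonempty := by
  have h1 : Tendsto (fun s : ℝ => s ^ (-(1 / p))) atTop (𝓝 0) :=
    tendsto_rpow_neg_atTop (by positivity)
  have h2 : Tendsto (fun s : ℝ => ((s ^ (-(1 / p)) : ℝ) : ℂ) * t) atTop (𝓝 0) := by
    have := ((Complex.continuous_ofReal.tendsto 0).comp h1).mul_const t
    simpa using this
  obtain ⟨s, hs1, hs2⟩ := ((h2.eventually (hU.mem_nhds (zero_mem_U D))).and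
    (eventually_gt_atTop 0)).exists
  exact ⟨s, hs2, hs1⟩

/-- `s'^(-1/p) t = (s/s')^(1/p) (s^(-1/p) t)` -/
theorem scl_scl {s s' : ℝ} (hs : 0 < s) (hs' : 0 < s') (t : ℂ) :
    ((s' ^ (-(1 / p)) : ℝ) : ℂ) * t = (((s / s') ^ (1 / p) : ℝ) : ℂ) *
      (((s ^ (-(1 / p)) : ℝ) : ℂ) * t) := by
  rw [← mul_assoc, ← Complex.ofReal_mul]
  congr 2
  rw [Real.div_rpow hs.le hs'.le, Real.rpow_neg hs.le, Real.rpow_neg hs'.le]
  have : s ^ (1 / p) ≠ 0 := (Real.rpow_pos_of_pos hs _).ne'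
  field_simp

theorem ratio_lt (hp : 0 < p) {s s' : ℝ} (hs : 0 < s) (h : s < s') : (s / s') ^ (1 / p) < 1 :=
  Real.rpow_lt_one (div_nonneg hs.le (hs.trans h).le) ((div_lt_one (hs.trans h)).2 h)
    (by positivity)

theorem ratio_nn {s s' : ℝ} (hs : 0 < s) (h : s < s') : 0 ≤ (s / s') ^ (1 / p) :=
  Real.rpow_nonneg (div_nonneg hs.le (hs.trans h).le) _

theorem up (hp : 0 < p)
    (hst : ∀ z : ℂ, ‖z‖ ≤ 1 → ∀ r : ℝ, 0 ≤ r → r < 1 → (r : ℂ) * D.h z ∈ D.U) {t : ℂ} {s s' : ℝ}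
    (hs : 0 < s) (h : s < s') (hK : ((s ^ (-(1 / p)) : ℝ) : ℂ) * t ∈ K D) :
    ((s' ^ (-(1 / p)) : ℝ) : ℂ) * t ∈ D.U := by
  obtain ⟨z, hz, hzt⟩ := hK
  rw [scl_scl hs (hs.trans h), ← hzt]
  exact hst z (by simpa using hz) _ (ratio_nn hs h) (ratio_lt hp hs h)

theorem down (hU : IsOpen D.U) {t : ℂ} {s : ℝ} (hs : 0 < s)
    (h : ((s ^ (-(1 / p)) : ℝ) : ℂ) * t ∈ D.U) :
    ∃ s', 0 < s' ∧ s' < s ∧ ((s' ^ (-(1 / p)) : ℝ) : ℂ) * t ∈ D.U := by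
  have h1 : ∀ᶠ s' : ℝ in 𝓝[<] s, ((s' ^ (-(1 / p)) : ℝ) : ℂ) * t ∈ D.U :=
    ((scl_cont hs t).eventually (hU.mem_nhds h)).filter_mono nhdsWithin_le_nhds
  have h2 : ∀ᶠ s' : ℝ in 𝓝[<] s, 0 < s' := nhdsWithin_le_nhds (lt_mem_nhds hs)
  have h3 : ∀ᶠ s' : ℝ in 𝓝[<] s, s' < s := self_mem_nhdsWithin
  obtain ⟨s', h4, h5, h6⟩ := (h1.and (h2.and h3)).exists
  exact ⟨s', h5, h6, h4⟩

theorem iff_lt (hp : 0 < p) (hU : IsOpen D.U)
    (hst : ∀ z : ℂ, ‖z‖ ≤ 1 → ∀ r : ℝ, 0 ≤ r → r < 1 → (r : ℂ) * D.h z ∈ D.U) (t : ℂ) (s : ℝ)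
    (hs : 0 < s) : ((s ^ (-(1 / p)) : ℝ) : ℂ) * t ∈ D.U ↔ D.V p t < s := by
  constructor
  · intro h
    obtain ⟨s', h1, h2, h3⟩ := down D hU hs h
    exact lt_of_le_of_lt (csInf_le (bdd D t) ⟨h1, h3⟩) h2
  · intro h
    obtain ⟨s', ⟨h1, h2⟩, h3⟩ := exists_lt_of_csInf_lt (nonempty D hp hU t) h
    exact up D hp hst h1 h3 (U_sub_K D h2)

theorem le_of_K (hp : 0 < p)
    (hst : ∀ z : ℂ, ‖z‖ ≤ 1 → ∀ r : ℝ, 0 ≤ r → r < 1 → (r : ℂ) * D.h z ∈ D.U) {t : ℂ} {s : ℝ}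
    (hs : 0 < s) (hK : ((s ^ (-(1 / p)) : ℝ) : ℂ) * t ∈ K D) : D.V p t ≤ s := by
  refine le_of_forall_gt fun s' h => ?_
  have h1 := up D hp hst hs (show s < (s + s') / 2 by linarith) hK
  have h2 : D.V p t ≤ (s + s') / 2 := csInf_le (bdd D t) ⟨by linarith, h1⟩
  linarith

theorem V_nn (t : ℂ) : 0 ≤ D.V p t := Real.sInf_nonneg fun _ hs => hs.1.le

theorem V_zero (hp : 0 < p) (hU : IsOpen D.U)
    (hst : ∀ z : ℂ, ‖z‖ ≤ 1 → ∀ r : ℝ, 0 ≤ r → r < 1 → (r : ℂ) * D.h z ∈ D.U) : D.V p 0 = 0 := by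
  refine le_antisymm (le_of_forall_gt fun s hs => ?_) (V_nn D 0)
  rw [← iff_lt D hp hU hst 0 s hs, mul_zero]
  exact zero_mem_U D

theorem V_pos (hp : 0 < p) (hU : IsOpen D.U)
    (hst : ∀ z : ℂ, ‖z‖ ≤ 1 → ∀ r : ℝ, 0 ≤ r → r < 1 → (r : ℂ) * D.h z ∈ D.U) {t : ℂ} (ht : t ≠ 0) :
    0 < D.V p t := by
  by_contra hc
  push Not at hc
  obtain ⟨R, hR⟩ := (K_compact D).isBounded.exists_norm_le
  have h1 : ∀ s : ℝ, 0 < s → s ^ (-(1 / p)) * ‖t‖ ≤ R := by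
    intro s hs
    have h2 := (iff_lt D hp hU hst t s hs).2 (lt_of_le_of_lt hc hs)
    have h3 := hR _ (U_sub_K D h2)
    rwa [norm_mul, Complex.norm_real, Real.norm_of_nonneg (Real.rpow_nonneg hs.le _)] at h3
  have ht' : 0 < ‖t‖ := norm_pos_iff.2 ht
  set s : ℝ := ((|R| + 1) / ‖t‖) ^ (-p) with hs
  have hb : 0 < (|R| + 1) / ‖t‖ := by positivity
  have hs0 : 0 < s := Real.rpow_pos_of_pos hb _
  have h2 := h1 s hs0
  rw [hs, ← Real.rpow_mul hb.le] at h2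
  have e : -p * -(1 / p) = 1 := by field_simp
  rw [e, Real.rpow_one, div_mul_cancel₀ _ ht'.ne'] at h2
  linarith [le_abs_self R]

theorem V_K (hp : 0 < p) (hU : IsOpen D.U)
    (hst : ∀ z : ℂ, ‖z‖ ≤ 1 → ∀ r : ℝ, 0 ≤ r → r < 1 → (r : ℂ) * D.h z ∈ D.U) {t : ℂ} (ht : t ≠ 0) :
    ((D.V p t ^ (-(1 / p)) : ℝ) : ℂ) * t ∈ K D := by
  have hpos := V_pos D hp hU hst ht
  have h1 : Tendsto (fun s : ℝ => ((s ^ (-(1 / p)) : ℝ) : ℂ) * t) (𝓝[>] (D.V p t))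
      (𝓝 (((D.V p t ^ (-(1 / p)) : ℝ) : ℂ) * t)) := (scl_cont hpos t).mono_left nhdsWithin_le_nhds
  refine (K_compact D).isClosed.mem_of_tendsto h1 ?_
  filter_upwards [self_mem_nhdsWithin] with s hs
  have hs' : D.V p t < s := hs
  exact U_sub_K D ((iff_lt D hp hU hst t s (hpos.trans hs')).2 hs')

theorem rpow_cancel {s : ℝ} (hs : 0 < s) : s ^ (-(1 / p)) * s ^ (1 / p) = 1 := by
  rw [← Real.rpow_add hs, neg_add_cancel, Real.rpow_zero]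

theorem V_circ (hp : 0 < p) (hU : IsOpen D.U)
    (hst : ∀ z : ℂ, ‖z‖ ≤ 1 → ∀ r : ℝ, 0 ≤ r → r < 1 → (r : ℂ) * D.h z ∈ D.U)
    (hcirc : ∀ z : ℂ, ‖z‖ = 1 → D.h z ∉ D.U) (hE : ∀ z : ℂ, ‖z‖ ≤ 1 → D.E (D.h z) = z)
    (s : ℝ) (z : ℂ) (hs : 0 < s) (hz : ‖z‖ = 1) :
    D.V p (((s ^ (1 / p) : ℝ) : ℂ) * D.h z) = s ∧ D.ze p (((s ^ (1 / p) : ℝ) : ℂ) * D.h z) = z := by
  have e : ((s ^ (-(1 / p)) : ℝ) : ℂ) * (((s ^ (1 / p) : ℝ) : ℂ) * D.h z) = D.h z := by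
    rw [← mul_assoc, ← Complex.ofReal_mul, rpow_cancel hs, Complex.ofReal_one, one_mul]
  have hV : D.V p (((s ^ (1 / p) : ℝ) : ℂ) * D.h z) = s := by
    refine le_antisymm ?_ ?_
    · refine le_of_K D hp hst hs ?_
      rw [e]
      exact ⟨z, by simpa using hz.le, rfl⟩
    · by_contra hc
      push Not at hc
      have h1 := (iff_lt D hp hU hst _ s hs).2 hc
      rw [e] at h1
      exact hcirc z hz h1
  refine ⟨hV, ?_⟩
  unfold Disc.ze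
  rw [hV, e]
  exact hE z hz.le

theorem V_spec (hp : 0 < p) (hU : IsOpen D.U)
    (hst : ∀ z : ℂ, ‖z‖ ≤ 1 → ∀ r : ℝ, 0 ≤ r → r < 1 → (r : ℂ) * D.h z ∈ D.U)
    (hE : ∀ z : ℂ, ‖z‖ ≤ 1 → D.E (D.h z) = z) (t : ℂ) (ht : t ≠ 0) :
    0 < D.V p t ∧ ‖D.ze p t‖ = 1 ∧ ((D.V p t ^ (1 / p) : ℝ) : ℂ) * D.h (D.ze p t) = t := by
  have hpos := V_pos D hp hU hst ht
  have hK := V_K D hp hU hst ht
  obtain ⟨z, hz, hzt⟩ := hK
  have hz' : ‖z‖ ≤ 1 := by simpa using hz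
  have hze : D.ze p t = z := by
    unfold Disc.ze
    rw [← hzt]
    exact hE z hz'
  refine ⟨hpos, ?_, ?_⟩
  · rw [hze]
    refine le_antisymm hz' ?_
    by_contra hc
    push Not at hc
    have h1 : ((D.V p t ^ (-(1 / p)) : ℝ) : ℂ) * t ∈ D.U := ⟨z, by simpa using hc, hzt⟩
    exact lt_irrefl _ ((iff_lt D hp hU hst t _ hpos).1 h1)
  · rw [hze, hzt, ← mul_assoc, ← Complex.ofReal_mul, mul_comm (D.V p t ^ (1 / p)), rpow_cancel hpos,
      Complex.ofReal_one, one_mul]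

theorem V_le_iff (hp : 0 < p) (hU : IsOpen D.U)
    (hst : ∀ z : ℂ, ‖z‖ ≤ 1 → ∀ r : ℝ, 0 ≤ r → r < 1 → (r : ℂ) * D.h z ∈ D.U) (t : ℂ) {s : ℝ}
    (hs : 0 < s) : D.V p t ≤ s ↔ ((s ^ (-(1 / p)) : ℝ) : ℂ) * t ∈ K D := by
  constructor
  · intro h
    rcases eq_or_ne t 0 with rfl | ht
    · rw [mul_zero]
      exact U_sub_K D (zero_mem_U D)
    rcases lt_or_eq_of_le h with h | h
    · exact U_sub_K D ((iff_lt D hp hU hst t s hs).2 h)
    · rw [← h]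
      exact V_K D hp hU hst ht
  · exact le_of_K D hp hst hs

theorem V_cont (hp : 0 < p) (hU : IsOpen D.U)
    (hst : ∀ z : ℂ, ‖z‖ ≤ 1 → ∀ r : ℝ, 0 ≤ r → r < 1 → (r : ℂ) * D.h z ∈ D.U) :
    Continuous (D.V p) := by
  rw [OrderTopology.continuous_iff]
  intro a
  constructor
  · rw [← isClosed_compl_iff]
    have hcompl : (D.V p ⁻¹' Ioi a)ᶜ = {t | D.V p t ≤ a} := by
      ext t
      simp
    rw [hcompl]
    rcases lt_trichotomy a 0 with h | h | h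
    · have : {t | D.V p t ≤ a} = ∅ := by
        ext t
        simp only [mem_ofPred_eq, mem_empty_iff_false, iff_false, not_le]
        exact lt_of_lt_of_le h (V_nn D t)
      rw [this]
      exact isClosed_empty
    · have : {t | D.V p t ≤ a} = {0} := by
        ext t
        simp only [mem_ofPred_eq, mem_singleton_iff]
        constructor
        · intro h1
          by_contra h2
          have := V_pos D hp hU hst h2
          linarith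
        · rintro rfl
          rw [V_zero D hp hU hst, h]
      rw [this]
      exact isClosed_singleton
    · have : {t | D.V p t ≤ a} = (fun t : ℂ => ((a ^ (-(1 / p)) : ℝ) : ℂ) * t) ⁻¹' (K D) := by
        ext t
        exact V_le_iff D hp hU hst t h
      rw [this]
      exact (K_compact D).isClosed.preimage (by fun_prop)
  · rcases le_or_gt a 0 with h | h
    · have : D.V p ⁻¹' Iio a = ∅ := by
        ext t
        simp only [mem_preimage, mem_Iio, mem_empty_iff_false, iff_false, not_lt]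
        exact h.trans (V_nn D t)
      rw [this]
      exact isOpen_empty
    · have : D.V p ⁻¹' Iio a = (fun t : ℂ => ((a ^ (-(1 / p)) : ℝ) : ℂ) * t) ⁻¹' D.U := by
        ext t
        exact (iff_lt D hp hU hst t a h).symm
      rw [this]
      exact hU.preimage (by fun_prop)

/-- **The leaf VVV.** -/
theorem t_VVV (h1 : S_LEN) (h2 : S_STA) : S_VVV := by
  intro D p hp
  obtain ⟨-, hU, hE, hEc, -⟩ := h1 D
  obtain ⟨hst, hcirc⟩ := h2 D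
  have hV := V_cont D hp hU hst
  refine ⟨iff_lt D hp hU hst, hV, V_nn D, V_circ D hp hU hst hcirc hE,
    V_spec D hp hU hst hE, ?_, ?_⟩
  · have hf : ContinuousOn (fun t : ℂ => ((D.V p t ^ (-(1 / p)) : ℝ) : ℂ) * t) {0}ᶜ := by
      intro t ht
      have hpos := V_pos D hp hU hst (show t ≠ 0 from ht)
      have hc : ContinuousAt (fun t : ℂ => D.V p t ^ (-(1 / p))) t :=
        ContinuousAt.rpow_const hV.continuousAt (Or.inl hpos.ne')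
      exact ((Complex.continuous_ofReal.continuousAt.comp hc).mul
        continuousAt_id).continuousWithinAt
    exact hEc.comp hf fun t ht => V_K D hp hU hst ht
  · intro t ht
    obtain ⟨h3, h4, h5⟩ := V_spec D hp hU hst hE t ht
    have h6 := V_circ D hp hU hst hcirc hE (D.V p t) (-D.ze p t) h3 (by rw [norm_neg, h4])
    have e : ((D.V p t ^ (1 / p) : ℝ) : ℂ) * D.h (-D.ze p t) = -t := by
      rw [D.odd, mul_neg, h5]
    rw [e] at h6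
    exact h6

end Run7.h255.LPV
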